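import Mathlib
import Pool.Agent.Lib.MP_2fc951_gt.NoEmbed
import Pool.Agent.Lib.MP_2fc951_gt.PropA

/-!
# No bounded geometry space coarsely contains all bounded geometry spaces with Property A

This answers Q2 of MP_2fc951_gt in the negative, in a stronger form (the target space is not
assumed to have Property A).
-/

set_option autoImplicit false

namespace Pool.Agent.Results.MP_2fc951_gt.NoUniversalA

/-- Bounded geometry: for every `r > 0` there is `N` such that every closed ball of radius `r`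
has at most `N` points (all its finite subsets have at most `N` elements). -/
def BoundedGeometry (X : Type*) [MetricSpace X] : Prop :=
  ∀ r : ℝ, 0 < r → ∃ N : ℕ, ∀ x : X, ∀ s : Finset X,
    (↑s : Set X) ⊆ Metric.closedBall x r → s.card ≤ N

/-- `X` coarsely contains `Y`: there is a coarse embedding `Y → X`. -/
def CoarselyContains (X Y : Type*) [MetricSpace X] [MetricSpace Y] : Prop :=
  ∃ f : Y → X, ∃ ρm ρp : ℝ → ℝ,
    MonotoneOn ρm (Set.Ici 0) ∧ MonotoneOn ρp (Set.Ici 0) ∧
    (∀ t : ℝ, 0 ≤ t → 0 ≤ ρm t ∧ 0 ≤ ρp t) ∧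
    Filter.Tendsto ρm Filter.atTop Filter.atTop ∧
    ∀ y y' : Y, ρm (dist y y') ≤ dist (f y) (f y') ∧ dist (f y) (f y') ≤ ρp (dist y y')

/-- Yu's Property A: for all `R, ε > 0` there are `S > 0` and unit vectors `ξ x` of the real
space `ℓ¹(X)`, `ξ x` supported in the closed ball of radius `S` about `x`, with
`‖ξ x - ξ y‖ ≤ ε` whenever `dist x y ≤ R`. -/
def PropertyA (X : Type*) [MetricSpace X] : Prop :=
  ∀ R ε : ℝ, 0 < R → 0 < ε → ∃ S : ℝ, 0 < S ∧ ∃ ξ : X → lp (fun _ : X => ℝ) 1,
    (∀ x, ‖ξ x‖ = 1) ∧ (∀ x y, ξ x y ≠ 0 → dist x y ≤ S) ∧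
    ∀ x y, dist x y ≤ R → ‖ξ x - ξ y‖ ≤ ε

/-- For every metric space `X` of bounded geometry there is a metric space `Y` of bounded
geometry with Property A that does not coarsely embed into `X`. In particular no metric space of
bounded geometry with Property A coarsely contains all such spaces. -/
theorem result (X : Type*) [MetricSpace X] (hX : BoundedGeometry X) :
    ∃ (Y : Type) (_ : MetricSpace Y), BoundedGeometry Y ∧ PropertyA Y ∧
      ¬ CoarselyContains X Y := by
  rcases isEmpty_or_nonempty X with hE | hne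
  · let D : Pool.Agent.Lib.MP_2fc951_gt.Chords :=
      { σ := fun _ j => j
        invol := fun _ _ => rfl
        zero := fun _ => rfl
        bd := fun _ => 0
        fin := fun _ _ _ => rfl }
    refine ⟨Pool.Agent.Lib.MP_2fc951_gt.V D, inferInstance,
      Pool.Agent.Lib.MP_2fc951_gt.bddGeom D, Pool.Agent.Lib.MP_2fc951_gt.propertyA D, ?_⟩
    rintro ⟨f, _⟩
    exact hE.elim (f ⟨0, 0⟩)
  · obtain ⟨D, hD⟩ := Pool.Agent.Lib.MP_2fc951_gt.no_coarse hX
    exact ⟨Pool.Agent.Lib.MP_2fc951_gt.V D, inferInstance,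
      Pool.Agent.Lib.MP_2fc951_gt.bddGeom D, Pool.Agent.Lib.MP_2fc951_gt.propertyA D, hD⟩

end Pool.Agent.Results.MP_2fc951_gt.NoUniversalA
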